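import Pool.Agent.H639Z.OP.Basic

set_option autoImplicit false
open MeasureTheory Filter Topology
open scoped ENNReal

namespace Pool.Agent.H639Z.OP

variable {d : ℕ}

namespace Glue

theorem int_cmp {σ : X d → X d} {S : Set (X d)}
    (hσ : MeasurePreserving σ volume (volume.restrict S)) {F : X d → ℝ}
    (hF : AEStronglyMeasurable F volume) (hz : ∀ᵐ x ∂volume, x ∉ S → F x = 0)
    (hS : MeasurableSet S) : ∫ x, F (σ x) = ∫ x, F x := by
  rw [← integral_map hσ.measurable.aemeasurable (by rw [hσ.map_eq]; exact hF.restrict), hσ.map_eq,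
    setIntegral_eq_integral_of_ae_compl_eq_zero hz]

theorem sum_cmp {k : ℕ} (σ : X d → X d) (U : Fin k → P d) (c : Fin k → ℝ) :
    ∑ j, c j • cmp σ (U j) = cmp σ (∑ j, c j • U j) := by
  refine Prod.ext (funext fun x => ?_) (funext fun i => funext fun x => ?_)
  · rw [sum_fst]
    exact (sum_fst U c (σ x)).symm
  · rw [sum_snd]
    exact (sum_snd U c i (σ x)).symm

end Glue

theorem sqz_mp (i : Fin d) (t : ℝ) :
    MeasurePreserving (sqz i t) (volume : Measure (X d))
      (volume.restrict {x | t ≤ x i ∧ x i < t + 1}ᶜ) := by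
  have h1 : MeasurableSet {x : X d | x i < t} := measurableSet_lt (measurable_pi_apply i) measurable_const
  have h2 : MeasurableSet {x : X d | t + 1 ≤ x i} :=
    measurableSet_le measurable_const (measurable_pi_apply i)
  have hm : Measurable (sqz i t) :=
    Measurable.ite h1 measurable_id (measurable_id.add_const _)
  refine ⟨hm, Measure.ext fun A hA => ?_⟩
  have h3 : sqz i t ⁻¹' A = (A ∩ {x : X d | x i < t}) ∪
      (fun x => x + Pi.single i (1 : ℝ)) ⁻¹' (A ∩ {x : X d | t + 1 ≤ x i}) := by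
    ext x
    by_cases h : x i < t
    · simp [sqz, h]
    · simp [sqz, h, not_lt.1 h]
  have h4 : A ∩ {x : X d | t ≤ x i ∧ x i < t + 1}ᶜ =
      (A ∩ {x : X d | x i < t}) ∪ (A ∩ {x : X d | t + 1 ≤ x i}) := by
    rw [← Set.inter_union_distrib_left]
    congr 1
    ext x
    simp only [Set.mem_compl_iff, Set.mem_ofPred_eq, Set.mem_union, not_and_or, not_le, not_lt]
  rw [Measure.map_apply hm hA, Measure.restrict_apply hA, h3, h4, measure_union, measure_union,
    measure_preimage_add_right]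
  · refine Set.disjoint_left.2 fun x hx hx' => ?_
    have h5 : x i < t := hx.2
    have h6 : t + 1 ≤ x i := hx'.2
    linarith
  · exact hA.inter h2
  · refine Set.disjoint_left.2 fun x hx hx' => ?_
    have h5 : x i < t := hx.2
    have h6 : t + 1 ≤ (x + Pi.single i (1 : ℝ) : X d) i := hx'.2
    simp at h6
    linarith
  · exact (measurable_id.add_const _) (hA.inter h2)

theorem grad_zero {f : P d} (hf : H1 f) {O : Set (X d)} (hO : IsOpen O)
    (hz : ∀ᵐ x ∂volume, x ∈ O → f.1 x = 0) (i : Fin d) :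
    ∀ᵐ x ∂volume, x ∈ O → f.2 i x = 0 := by
  refine hO.ae_eq_zero_of_integral_contDiff_smul_eq_zero
    (((hf.g2 i).locallyIntegrable one_le_two).locallyIntegrableOn O) fun φ hφ hc hs => ?_
  have h1 := hf.weak i φ hφ hc
  have h2 : ∫ x, f.1 x * pd φ i x = 0 := by
    refine integral_eq_zero_of_ae ?_
    filter_upwards [hz] with x hx
    by_cases h : x ∈ O
    · simp [hx h]
    · have h3 : fderiv ℝ φ x = 0 := fderiv_of_notMem_tsupport ℝ fun h4 => h (hs h4)
      simp [pd, h3]
  simp only [smul_eq_mul, mul_comm (φ _)]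
  linarith

theorem frame_cmp {V : X d → ℝ≥0∞} (hV : Measurable V) {σ : X d → X d} {S : Set (X d)}
    (hS : MeasurableSet S) (hσ : MeasurePreserving σ volume (volume.restrict S))
    {k : ℕ} {L : ℝ} {U : Fin k → P d} (hU : Frame (DV V hV) B (Q V) k L U)
    (hz : ∀ j, ∀ᵐ x ∂volume, x ∉ S → (U j).1 x = 0 ∧ ∀ i, (U j).2 i x = 0)
    (hH : ∀ j, H1 (cmp σ (U j))) :
    Frame (DV (V ∘ σ) (hV.comp hσ.measurable)) B (Q (V ∘ σ)) k L (fun j => cmp σ (U j)) := by
  have hD : ∀ j, Dom V (U j) := hU.1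
  refine ⟨fun j => ⟨hH j, ?_⟩, fun i j => ?_, fun c => ?_⟩
  · have h1 := lintegral_map' (μ := volume) (g := σ)
      (f := fun x => V x * ENNReal.ofReal ((U j).1 x ^ 2))
      (by rw [hσ.map_eq]; exact (aem_pot hV (hD j).h1.u2.1).restrict) hσ.measurable.aemeasurable
    rw [hσ.map_eq] at h1
    exact (h1.symm.le.trans (setLIntegral_le_lintegral _ _)).trans_lt (hD j).fin
  · rw [← hU.2.1 i j]
    refine Glue.int_cmp hσ (F := fun x => (U i).1 x * (U j).1 x)
      ((hD i).h1.u2.1.mul (hD j).h1.u2.1) ?_ hS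
    filter_upwards [hz i] with x hx h
    rw [(hx h).1, zero_mul]
  · rw [Glue.sum_cmp]
    refine le_trans (le_of_eq ?_) (hU.2.2 c)
    have hW := Dom.sum hV hD c
    have hz' : ∀ᵐ x ∂volume, x ∉ S → (∑ j, c j • U j).1 x = 0 ∧ ∀ i, (∑ j, c j • U j).2 i x = 0 := by
      filter_upwards [ae_all_iff.2 hz] with x hx h
      refine ⟨?_, fun i => ?_⟩
      · rw [sum_fst]
        exact Finset.sum_eq_zero fun j _ => by rw [(hx j h).1, mul_zero]
      · rw [sum_snd]
        exact Finset.sum_eq_zero fun j _ => by rw [(hx j h).2 i, mul_zero]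
    set W := ∑ j, c j • U j
    unfold Q G Pt
    congr 1
    · refine Finset.sum_congr rfl fun i _ => Glue.int_cmp hσ (F := fun x => W.2 i x * W.2 i x)
        ((hW.h1.g2 i).1.mul (hW.h1.g2 i).1) ?_ hS
      filter_upwards [hz'] with x hx h
      rw [(hx h).2 i, zero_mul]
    · refine Glue.int_cmp hσ (F := fun x => (V x).toReal * (W.1 x * W.1 x))
        (aesm_pot hV hW.h1.u2.1 hW.h1.u2.1) ?_ hS
      filter_upwards [hz'] with x hx h
      rw [(hx h).1, zero_mul, mul_zero]

end Pool.Agent.H639Z.OP
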